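import Pool.Agent.Helper43.CR.Defs

/-!
Closed subsets do not raise the covering dimension.
-/

set_option autoImplicit false

open Set Topology Filter TopologicalSpace

namespace Pool.Agent.Helper62.CR

open Pool.Agent.Helper43.CR

/-- Closed subsets do not raise the covering dimension. -/
theorem CovDimLE.closed_subset {X : Type} [TopologicalSpace X] {A C : Set X} {d : ℕ}
    (h : CovDimLE A d) (hC : IsClosed C) (hCA : C ⊆ A) : CovDimLE C d := by
  intro m U hUo hUc
  rcases isEmpty_or_nonempty C with hemp | ⟨⟨x0⟩⟩
  · refine ⟨0, fun _ => ∅, fun j => j.elim0, ?_, fun j => j.elim0, fun x => (hemp.false x).elim⟩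
    apply Set.eq_univ_of_forall
    intro x
    exact (hemp.false x).elim
  · have hx0 : x0 ∈ ⋃ i, U i := by rw [hUc]; exact mem_univ _
    obtain ⟨i0, -⟩ := mem_iUnion.1 hx0
    choose O hOo hO using fun i => isOpen_induced_iff.1 (hUo i)
    obtain ⟨k, V, hVo, hVc, href, hcard⟩ := h (m + 1)
      (Fin.cons ((Subtype.val : A → X) ⁻¹' Cᶜ) (fun i => (Subtype.val : A → X) ⁻¹' O i))
      (by
        intro i
        refine Fin.cases ?_ (fun i => ?_) i
        · simpa using hC.isOpen_compl.preimage continuous_subtype_val
        · simpa using (hOo i).preimage continuous_subtype_val)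
      (by
        apply Set.eq_univ_of_forall
        intro x
        by_cases hx : (x : X) ∈ C
        · have : (⟨(x : X), hx⟩ : C) ∈ ⋃ i, U i := by rw [hUc]; exact mem_univ _
          obtain ⟨i, hi⟩ := mem_iUnion.1 this
          refine mem_iUnion.2 ⟨i.succ, ?_⟩
          rw [← hO i] at hi
          simpa using hi
        · exact mem_iUnion.2 ⟨0, by simpa using hx⟩)
    refine ⟨k, fun j => (Set.inclusion hCA) ⁻¹' V j, ?_, ?_, ?_, ?_⟩
    · intro j
      exact (hVo j).preimage (continuous_inclusion hCA)
    · apply Set.eq_univ_of_forall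
      intro x
      have : Set.inclusion hCA x ∈ ⋃ j, V j := by rw [hVc]; exact mem_univ _
      obtain ⟨j, hj⟩ := mem_iUnion.1 this
      exact mem_iUnion.2 ⟨j, hj⟩
    · intro j
      obtain ⟨i, hi⟩ := href j
      revert hi
      refine Fin.cases (fun hi => ?_) (fun i hi => ?_) i
      · refine ⟨i0, fun x hx => ?_⟩
        have := hi hx
        simp only [Fin.cons_zero, mem_preimage, mem_compl_iff] at this
        exact (this x.2).elim
      · refine ⟨i, fun x hx => ?_⟩
        have := hi hx
        simp only [Fin.cons_succ, mem_preimage] at this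
        rw [← hO i]
        exact this
    · intro x
      exact hcard (Set.inclusion hCA x)

end Pool.Agent.Helper62.CR
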